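import Pool.Agent.Helper47.FLG.Pde

/-!
# Project FLG, packet HRN: the Harnack inequality
-/

set_option autoImplicit false

namespace Pool.Agent.Helper47.FLG

open Finset Pool.Agent.Helper47.RFn

namespace HRNaux

theorem id4_nn (hWQ : Goal_WQ) (hLN : Goal_LN) (n : ℕ) (z w : Fin n → ℂ) : 0 ≤ qf (Id4 n) z w := by
  have h := (hLN n).2.2.2.2.2.2.2.2.2.2.2.2.2
  exact (hWQ n 1 1 1 Matrix.isSymm_one (fun v => by rw [h, one_mul])
    (fun v => by rw [h, one_mul]) z w).1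

/-- the function of the heat solution -/
noncomputable def ph (s M c0 x : ℝ) : ℝ := 2 * s * (c0 - Real.sqrt (Real.log (M / x)))

theorem lpos {M x : ℝ} (h0 : 0 < x) (hx : x < M) : 0 < Real.log (M / x) :=
  Real.log_pos ((one_lt_div h0).mpr hx)

theorem ph_smooth (s M c0 : ℝ) :
    ContDiffOn ℝ ((⊤ : ℕ∞) : WithTop ℕ∞) (ph s M c0) (Set.Ioo 0 M) := by
  unfold ph
  refine contDiffOn_const.mul (contDiffOn_const.sub (ContDiffOn.sqrt (ContDiffOn.log
    (contDiffOn_const.div contDiffOn_id fun x hx => hx.1.ne') fun x hx => ?_) fun x hx => ?_))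
  · have h1 : 0 < M := hx.1.trans hx.2
    exact (div_pos h1 hx.1).ne'
  · exact (lpos hx.1 hx.2).ne'

theorem ph_deriv (s M c0 : ℝ) {x : ℝ} (h0 : 0 < x) (hx : x < M) :
    deriv (ph s M c0) x = s / (x * Real.sqrt (Real.log (M / x))) := by
  have hM : 0 < M := h0.trans hx
  have hl := lpos h0 hx
  have hs : 0 < Real.sqrt (Real.log (M / x)) := Real.sqrt_pos.mpr hl
  have h1 : HasDerivAt (fun y : ℝ => M / y) ((0 * x - M * 1) / x ^ 2) x :=
    (hasDerivAt_const x M).div (hasDerivAt_id x) h0.ne'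
  have h2 := ((h1.log (div_pos hM h0).ne').sqrt hl.ne').const_sub c0
  have h3 := h2.const_mul (2 * s)
  have h4 : HasDerivAt (ph s M c0) (2 * s * -((0 * x - M * 1) / x ^ 2 / (M / x) /
    (2 * Real.sqrt (Real.log (M / x))))) x := h3
  rw [h4.deriv]
  have hx0 := h0.ne'
  have hM0 := hM.ne'
  have hs0 := hs.ne'
  field_simp
  ring

theorem ar1 {x a L : ℝ} (h0 : 0 ≤ x) (h1 : x ≤ L / 2) (h2 : 0 ≤ a) (h3 : a ≤ L / 2) :
    (x - a) ^ 2 ≤ L ^ 2 / 4 := by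
  have h4 : (x - a) ^ 2 ≤ (L / 2) ^ 2 := sq_le_sq' (by linarith) (by linarith)
  refine h4.trans (le_of_eq ?_)
  ring

theorem ar2 {Z P U a L d e e' : ℝ} (ha : 0 ≤ a) (hd : 0 ≤ d) (g6 : e' * (1 + 2 * a) = e)
    (g7 : (P - a) ^ 2 ≤ L ^ 2 / 4) (g1 : 0 - e' ≤ U - P) (g2 : 0 - e' ≤ P ^ 2 - Z) :
    -e ≤ (1 / 4 + 2 * d) * L ^ 2 - (Z - 2 * a * U + (a ^ 2 + d * L ^ 2)) := by
  have g8 : 2 * a * (P - e') ≤ 2 * a * U := mul_le_mul_of_nonneg_left (by linarith) (by linarith)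
  have g9 : 0 ≤ d * L ^ 2 := by positivity
  have g10 : (P - a) ^ 2 = P ^ 2 - 2 * a * P + a ^ 2 := by ring
  have g11 : 2 * a * (P - e') = 2 * a * P - 2 * a * e' := by ring
  have g12 : e' * (1 + 2 * a) = e' + 2 * a * e' := by ring
  have g13 : (1 / 4 + 2 * d) * L ^ 2 = L ^ 2 / 4 + 2 * (d * L ^ 2) := by ring
  rw [g13]
  linarith

theorem ar3 {Z U a L d q : ℝ} (h9 : 0 ≤ Z - U ^ 2) (hq : q = Z - 2 * a * U + (a ^ 2 + d * L ^ 2)) :
    (U - a) ^ 2 + d * L ^ 2 ≤ q := by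
  have g10 : (U - a) ^ 2 = U ^ 2 - 2 * a * U + a ^ 2 := by ring
  rw [hq]
  linarith

theorem ar4 {U a L d q : ℝ} (hL : 0 < L) (hd0 : 0 < d) (hd : d ≤ 1 / 8)
    (h1 : (U - a) ^ 2 + d * L ^ 2 ≤ q) (h2 : q ≤ (1 / 4 + 2 * d) * L ^ 2) : 0 < q ∧ q < L ^ 2 := by
  have h3 := sq_nonneg (U - a)
  have h4 : 0 < d * L ^ 2 := by positivity
  have h5 : 0 < L ^ 2 := by positivity
  have h6 : d * L ^ 2 ≤ 1 / 8 * L ^ 2 := mul_le_mul_of_nonneg_right hd h5.le
  have h7 : (1 / 4 + 2 * d) * L ^ 2 = L ^ 2 / 4 + 2 * (d * L ^ 2) := by ring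
  exact ⟨by linarith, by linarith⟩

theorem ar5 (x y a : ℝ) : (x - 2 * a * y) ^ 2 ≤ 2 * x ^ 2 + 8 * a ^ 2 * y ^ 2 := by
  nlinarith [sq_nonneg (x + 2 * a * y)]

theorem ar6 {Z a L E d q : ℝ} (hE : 0 < E) (hd : d = E / 8) (h8 : Z - a ^ 2 ≤ E / 20 * L ^ 2)
    (hq : q = Z - 2 * a * a + (a ^ 2 + d * L ^ 2)) : q ≤ E * L ^ 2 := by
  have h1 : 0 ≤ E * L ^ 2 := by positivity
  have h2 : a * a = a ^ 2 := by ring
  have h3 : 2 * a * a = 2 * a ^ 2 := by ring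
  have h4 : E / 8 * L ^ 2 = (E * L ^ 2) / 8 := by ring
  have h5 : E / 20 * L ^ 2 = (E * L ^ 2) / 20 := by ring
  rw [hq, hd, h3, h4]
  rw [h5] at h8
  linarith

theorem ar7 {U a L d q : ℝ} (hL : 0 < L) (hd : 0 < d) (h : (U - a) ^ 2 + d * L ^ 2 ≤ q)
    (h1 : 400 * q ≤ L ^ 2) : a - U ≤ L / 20 := by
  have h4 : 0 < d * L ^ 2 := by positivity
  have h5 : (L / 20) ^ 2 = L ^ 2 / 400 := by ring
  have h6 : (a - U) ^ 2 = (U - a) ^ 2 := by ring
  have h7 : (a - U) ^ 2 ≤ (L / 20) ^ 2 := by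
    rw [h5, h6]
    linarith
  exact (abs_le_of_sq_le_sq' h7 (by positivity)).2

end HRNaux

open HRNaux in
theorem g_HRN (hHR1 : G_HR1) (hZET : G_ZET) (hGRH : G_GRH) (hMP1 : Goal_MP1) (hPRD : Goal_PRD)
    (hVIN : Goal_VIN) (_hBIA : Goal_BIA) (_hBDD : Goal_BDD) (hWQ : Goal_WQ) (hLN : Goal_LN) :
    G_HRN := by
  intro n hn l hl
  obtain ⟨C2, hC2, hH⟩ := hHR1 n hn
  obtain ⟨E, hE⟩ : ∃ E, E = Real.exp (-(l / 2 + Real.sqrt (Real.log 400)) ^ 2) := ⟨_, rfl⟩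
  have hE0 : 0 < E := by
    rw [hE]
    exact Real.exp_pos _
  have hE1 : E ≤ 1 := by
    rw [hE, Real.exp_le_one_iff]
    exact neg_nonpos.mpr (sq_nonneg _)
  refine ⟨E / (20 * C2), by positivity, ?_⟩
  intro T F hF hRF l0 hl0 hlam hFG ε K b hε hK hb hSf τ y hty hq ze u zz hz
  have hB := hF.toBase
  have hτ : 0 < (τ : ℝ) := τ.2.1
  obtain ⟨ι, hι, z', w', hI0, hI⟩ := hq
  have hIp : 0 < qf (Id4 n) z' w' := lt_of_le_of_ne (id4_nn hWQ hLN n z' w') (Ne.symm hI0)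
  have hHR := hH T F hF hRF l0 hl0 hlam hFG ε K b hε hK hb hSf τ hτ ze u zz hz
  obtain ⟨-, hZ⟩ := (hZET n hn T F hF hRF (fun z t => hl0.trans_le (hlam z t)) τ hτ).2 ze hz.zef
  obtain ⟨h1, h2, h3, h4⟩ := hHR y τ
  obtain ⟨h5, h6⟩ := h4 ι hι z' w'
  obtain ⟨L, hL⟩ : ∃ L : ℝ, L = 1 / (τ : ℝ) := ⟨_, rfl⟩
  have hL0 : 0 < L := by
    rw [hL]
    positivity
  have hLt : (τ : ℝ) * L = 1 := by
    rw [hL]
    field_simp
  have hLy : F.ev y τ F.lam = L := by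
    have h7 : (τ : ℝ) * F.ev y τ F.lam = τ * L := by rw [hty, hLt]
    exact mul_left_cancel₀ hτ.ne' h7
  rw [hLy] at hI h5 h6
  have hIC := mul_le_mul_of_nonneg_left hI hC2.le
  have hce : C2 * (E / (20 * C2)) = E / 20 := by
    field_simp
  have h7 : F.ev y τ (ze - u) ≤ E / 20 * L := by
    refine le_of_mul_le_mul_right ?_ hIp
    refine h5.trans (hIC.trans (le_of_eq ?_))
    rw [← hce]
    ring
  have h8 : F.ev y τ (zz - u ^ 2) ≤ E / 20 * L ^ 2 := by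
    have h9 : (τ : ℝ) * F.ev y τ (zz - u ^ 2) ≤ E / 20 * L := by
      refine le_of_mul_le_mul_right ?_ hIp
      refine h6.trans (hIC.trans (le_of_eq ?_))
      rw [← hce]
      ring
    have h10 := mul_le_mul_of_nonneg_left h9 hL0.le
    have h11 : L * ((τ : ℝ) * F.ev y τ (zz - u ^ 2)) = (τ * L) * F.ev y τ (zz - u ^ 2) := by ring
    rw [h11, hLt, one_mul] at h10
    refine h10.trans (le_of_eq ?_)
    ring
  have hzy : F.ev y τ ze = L / 5 := by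
    rw [hz.zef, hLy, hL]
    field_simp
    norm_num
  obtain ⟨a, ha⟩ : ∃ a, a = F.ev y τ u := ⟨_, rfl⟩
  rw [← ha] at h2
  rw [map_sub, hzy, ← ha] at h1 h7
  -- the heat solution `q`
  obtain ⟨δ, hδ⟩ : ∃ δ, δ = E / 8 := ⟨_, rfl⟩
  have hδ0 : 0 < δ := by
    rw [hδ]
    positivity
  have hδ1 : δ ≤ 1 / 8 := by
    rw [hδ]
    linarith
  obtain ⟨q, hqd⟩ : ∃ q : F.B, q = zz - (2 * a) • u + algebraMap ℝ F.B (a ^ 2 + δ * L ^ 2) := ⟨_, rfl⟩
  have hqe : ∀ z t, F.ev z t q = F.ev z t zz - 2 * a * F.ev z t u + (a ^ 2 + δ * L ^ 2) := fun z t => by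
    rw [hqd, map_add, map_sub, map_smul, AlgHom.commutes, smul_eq_mul]
    rfl
  have hprd := (hPRD n T F).1
  have hHc : ∀ c : ℝ, F.Hop (algebraMap ℝ F.B c) = 0 := fun c => ((hprd 0 0).2.2.2.1 c).2
  have hHu : F.Hop u = 0 := by
    unfold FB.Hop
    rw [hz.heu, sub_self]
  have hHz : F.Hop zz = 0 := by
    unfold FB.Hop
    rw [hz.hez, sub_self]
  have hHq : F.Hop q = 0 := by
    rw [hqd, (hprd _ _).2.1, (hprd _ _).2.2.1, ((hprd u 0).2.2.2.1 (2 * a)).1, hHu, hHz, hHc, smul_zero,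
      sub_zero, add_zero]
  have hDq : F.D q = F.Lap q := by
    have h9 := hHq
    unfold FB.Hop at h9
    exact sub_eq_zero.mp h9
  obtain ⟨-, -, -, -, v5, v6, v7, -, -, -⟩ := hVIN n T F hF
  have hVq : F.VI q := by
    rw [hqd]
    exact (v6 _ _ ((v6 _ _ hz.viz (v7 _ _ hz.viu)).2.1) (v5 _)).1
  -- bounds
  have hlow : ∀ z t, (F.ev z t u - a) ^ 2 + δ * L ^ 2 ≤ F.ev z t q := fun z t => by
    have h9 := (hHR z t).2.2.1
    rw [map_sub, map_pow] at h9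
    exact ar3 h9 (hqe z t)
  have hup : ∀ z t, F.ev z t q ≤ (1 / 4 + 2 * δ) * L ^ 2 := by
    intro z t
    have h9 := hMP1 n T F hB (algebraMap ℝ F.B ((1 / 4 + 2 * δ) * L ^ 2) - q) 0 t 0 1 le_rfl t.2.2
      le_rfl one_pos ?_ ?_ z t t.2.1 le_rfl
    · rw [map_sub, AlgHom.commutes] at h9
      have e : (algebraMap ℝ ℝ) ((1 / 4 + 2 * δ) * L ^ 2) = (1 / 4 + 2 * δ) * L ^ 2 := rfl
      rw [e] at h9
      linarith
    · intro e he
      have h1a : 0 < 1 + 2 * a := by linarith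
      obtain ⟨ta, hta, -, Ha⟩ := hz.iu1 (e / (1 + 2 * a)) (by positivity)
      obtain ⟨tb, htb, -, Hb⟩ := hz.iz2 (e / (1 + 2 * a)) (by positivity)
      refine ⟨min ta tb, lt_min hta htb, fun z t _ ht => ?_⟩
      have ht' : (t : ℝ) < min ta tb := by linarith
      have g1 := Ha z t (ht'.trans_le (min_le_left _ _))
      have g2 := Hb z t (ht'.trans_le (min_le_right _ _))
      obtain ⟨g3, -, g4, -⟩ := hZ z t
      rw [map_sub] at g1
      rw [map_sub, map_pow] at g2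
      have g5 : 1 / (2 * (τ : ℝ)) = L / 2 := by
        rw [hL]
        field_simp
      rw [g5] at g4
      have e1 : (algebraMap ℝ ℝ) ((1 / 4 + 2 * δ) * L ^ 2) = (1 / 4 + 2 * δ) * L ^ 2 := rfl
      rw [map_sub, AlgHom.commutes, e1, hqe]
      have g6 : e / (1 + 2 * a) * (1 + 2 * a) = e := by
        field_simp
      exact ar2 h2 hδ0.le g6 (ar1 g3.le g4 h2 (by linarith)) g1 g2
    · intro z t _ _ _ _ _
      rw [zero_mul, (hprd _ _).2.2.1, hHc, hHq, sub_zero, map_zero]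
  have hrange : ∀ z t, F.ev z t q ∈ Set.Ioo (0 : ℝ) (L ^ 2) := fun z t =>
    ar4 hL0 hδ0 hδ1 (hlow z t) (hup z t)
  have hbd : F.Bd0 (F.gg q q) := by
    obtain ⟨Cu, tu, htu, htu', Hu⟩ := hz.bu
    obtain ⟨Cz, tz, htz, -, Hz'⟩ := hz.bz
    refine ⟨2 * Cz + 8 * a ^ 2 * Cu, min tu tz, lt_min htu htz, (min_le_left _ _).trans_lt htu',
      fun z t ht => ?_⟩
    have g1 := Hu z t (ht.trans_le (min_le_left _ _))
    have g2 := Hz' z t (ht.trans_le (min_le_right _ _))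
    have hgg : ∀ f : F.B, F.ev z t (F.gg f f) = ∑ i, F.ev z t (F.H i f) ^ 2 := fun f => by
      unfold FB.gg
      rw [map_sum]
      refine Finset.sum_congr rfl fun i _ => ?_
      rw [map_mul]
      ring
    have hHq' : ∀ i, F.ev z t (F.H i q) = F.ev z t (F.H i zz) - 2 * a * F.ev z t (F.H i u) := fun i => by
      rw [hqd]
      rw [map_add, map_sub, Derivation.map_smul, Derivation.map_algebraMap, add_zero, map_sub, map_smul,
        smul_eq_mul]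
    have g3 := (le_abs_self _).trans g1
    have g4 := (le_abs_self _).trans g2
    rw [hgg] at g3 g4
    rw [abs_of_nonneg (by rw [hgg]; exact Finset.sum_nonneg fun i _ => sq_nonneg _), hgg]
    calc ∑ i, F.ev z t (F.H i q) ^ 2
        ≤ ∑ i, (2 * F.ev z t (F.H i zz) ^ 2 + 8 * a ^ 2 * F.ev z t (F.H i u) ^ 2) := by
          refine Finset.sum_le_sum fun i _ => ?_
          rw [hHq']
          exact ar5 _ _ _
      _ = 2 * (∑ i, F.ev z t (F.H i zz) ^ 2) + 8 * a ^ 2 * ∑ i, F.ev z t (F.H i u) ^ 2 := by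
          rw [Finset.sum_add_distrib, Finset.mul_sum, Finset.mul_sum]
      _ ≤ _ := add_le_add (mul_le_mul_of_nonneg_left g4 (by norm_num))
          (mul_le_mul_of_nonneg_left g3 (by positivity))
  have hG := hGRH n hn T F hF hRF q (δ * L ^ 2) (L ^ 2) (by positivity) hVq hDq
    (fun z t => ⟨(le_add_of_nonneg_left (sq_nonneg _)).trans (hlow z t), (hrange z t).2⟩) hbd
  -- the function `hb`
  obtain ⟨c0, hc0⟩ : ∃ c0, c0 = Real.sqrt (Real.log (L ^ 2 / F.ev y τ q)) := ⟨_, rfl⟩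
  obtain ⟨g, hg⟩ := hB.comp (ph (Real.sqrt τ) (L ^ 2) c0) (Set.Ioo 0 (L ^ 2)) isOpen_Ioo
    (ph_smooth _ _ _) q hrange
  have hch := hB.chain (ph (Real.sqrt τ) (L ^ 2) c0) (Set.Ioo 0 (L ^ 2)) isOpen_Ioo
    (ph_smooth _ _ _) q g hrange hg
  refine ⟨g, fun k k' => ?_, fun z => ?_, ?_, fun z hzl => ?_⟩
  · apply hB.ext
    intro z t
    rw [(hch z t).2.1, hVq k k', map_zero, mul_zero]
  · obtain ⟨x0, x1⟩ := hrange z τ
    have hl' := lpos x0 x1
    have g1 := hG z τ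
    have g2 : F.ev z τ (F.gg g g) = (Real.sqrt τ / (F.ev z τ q * Real.sqrt (Real.log (L ^ 2 / F.ev z τ q)))) ^ 2
        * F.ev z τ (F.gg q q) := by
      unfold FB.gg
      rw [map_sum, map_sum, Finset.mul_sum]
      refine Finset.sum_congr rfl fun i _ => ?_
      rw [map_mul, map_mul, (hch z τ).1, ph_deriv _ _ _ x0 x1]
      ring
    rw [g2, div_pow, mul_pow, Real.sq_sqrt hτ.le, Real.sq_sqrt hl'.le, div_mul_eq_mul_div,
      div_le_one (by positivity)]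
    exact g1
  · rw [hg]
    unfold ph
    rw [hc0, sub_self, mul_zero]
  · rw [hg] at hzl
    unfold ph at hzl
    obtain ⟨x0, x1⟩ := hrange z τ
    obtain ⟨y0, y1⟩ := hrange y τ
    have hst : 0 < Real.sqrt τ := Real.sqrt_pos.mpr hτ
    have k1 : c0 - l / 2 ≤ Real.sqrt (Real.log (L ^ 2 / F.ev z τ q)) := by
      have k2 : (2 * (c0 - Real.sqrt (Real.log (L ^ 2 / F.ev z τ q)))) * Real.sqrt τ ≤ l * Real.sqrt τ := by
        refine le_trans (le_of_eq ?_) hzl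
        ring
      have k3 := le_of_mul_le_mul_right k2 hst
      linarith
    -- the value at `y`
    have k4 : F.ev y τ q ≤ E * L ^ 2 := by
      have k5 := hqe y τ
      rw [map_sub, map_pow, ← ha] at h8
      rw [← ha] at k5
      exact ar6 hE0 hδ h8 k5
    have k6 : (l / 2 + Real.sqrt (Real.log 400)) ^ 2 ≤ Real.log (L ^ 2 / F.ev y τ q) := by
      have k7 : Real.log (1 / E) = (l / 2 + Real.sqrt (Real.log 400)) ^ 2 := by
        rw [hE, one_div, ← Real.exp_neg, Real.log_exp]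
        ring
      rw [← k7]
      refine Real.log_le_log (by positivity) ?_
      rw [div_le_div_iff₀ hE0 y0, one_mul, mul_comm]
      exact k4
    have hs0 : 0 ≤ Real.sqrt (Real.log 400) := Real.sqrt_nonneg _
    have k8 : l / 2 + Real.sqrt (Real.log 400) ≤ c0 := by
      rw [hc0]
      exact Real.le_sqrt_of_sq_le k6
    have k9 : Real.sqrt (Real.log 400) ≤ Real.sqrt (Real.log (L ^ 2 / F.ev z τ q)) := by linarith
    have k10 : Real.log 400 ≤ Real.log (L ^ 2 / F.ev z τ q) :=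
      (Real.sqrt_le_sqrt_iff (lpos x0 x1).le).mp k9
    have k11 : (400 : ℝ) ≤ L ^ 2 / F.ev z τ q :=
      (Real.log_le_log_iff (by norm_num) (div_pos (pow_pos hL0 2) x0)).mp k10
    rw [le_div_iff₀ x0] at k11
    have k13 : a - F.ev z τ u ≤ L / 20 := ar7 hL0 hδ0 (hlow z τ) k11
    have k15 := (hZ z τ).2.1
    have k16 := (hHR z τ).1
    rw [map_sub] at k16
    have k17 : 1 / (10 * (τ : ℝ)) = L / 10 := by
      rw [hL]
      field_simp
    rw [k17]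
    have k18 : E / 20 * L ≤ 1 / 20 * L := mul_le_mul_of_nonneg_right (by linarith) hL0.le
    linarith

end Pool.Agent.Helper47.FLG
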