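import Pool.Agent.Helper47.FLG.Alg2

/-!
# Project FLG, packet SA3: the structure at a vertex where all flags have zero reaction term
-/

set_option autoImplicit false

namespace Pool.Agent.Helper47.FLG

open Finset Pool.Agent.Helper47.RFn

namespace SA3aux

variable {n : ℕ}

theorem dot_comm (u v : Fin n → ℝ) : dot u v = dot v u := by
  unfold dot
  exact Finset.sum_congr rfl fun i _ => mul_comm _ _

theorem nrm_dot (u : Fin n → ℝ) : nrm u = dot u u := by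
  unfold nrm dot
  exact Finset.sum_congr rfl fun i _ => by ring

theorem dot_lin (a b c : Fin n → ℝ) (s t : ℝ) :
    dot (fun i => s * a i + t * b i) c = s * dot a c + t * dot b c := by
  unfold dot
  rw [Finset.mul_sum, Finset.mul_sum, ← Finset.sum_add_distrib]
  exact Finset.sum_congr rfl fun i _ => by ring

theorem dot_lin' (a b c : Fin n → ℝ) (s t : ℝ) :
    dot c (fun i => s * a i + t * b i) = s * dot c a + t * dot c b := by
  rw [dot_comm, dot_lin, dot_comm a, dot_comm b]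

theorem nrm_eq_zero {w : Fin n → ℝ} (h : nrm w = 0) : w = 0 := by
  funext i
  unfold nrm at h
  have h1 := (Finset.sum_eq_zero_iff_of_nonneg fun i _ => sq_nonneg (w i)).mp h i (Finset.mem_univ i)
  exact (pow_eq_zero_iff two_ne_zero).mp h1

/-- the data of SA3 -/
structure Fm (R : T4 n) (k l : ℕ) (z : Fin n → ℝ) (X : Fin k → Fin n → ℝ) (Y : Fin l → Fin n → ℝ) :
    Prop where
  dim : 1 + k + l = n
  fg : FG R
  nz : nrm z = 1
  oX : ON X
  oY : ON Y
  Xz : ∀ i, dot (X i) z = 0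
  Yz : ∀ j, dot (Y j) z = 0
  XY : ∀ i j, dot (X i) (Y j) = 0
  eX : ∀ i, Eg R z 4 (X i)
  eY : ∀ j, Eg R z 1 (Y j)
  hD : ∀ x y, Ac R z x y → Dz R z x y = 0

/-- symmetries -/
structure Sy (R : T4 n) : Prop where
  s1 : ∀ a b c d, R4 R a b c d = - R4 R b a c d
  s2 : ∀ a b c d, R4 R a b c d = - R4 R a b d c
  s3 : ∀ a b c d, R4 R a b c d = R4 R c d a b
  k2 : ∀ u v, K2 R u v = R4 R u v u v
  kc : ∀ u v, K2 R u v = K2 R v u
  e1 : ∀ a b c d, R4 R a b c d = ∑ j, a j * R4 R (sb j) b c d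
  e2 : ∀ a b c d, R4 R a b c d = ∑ j, b j * R4 R a (sb j) c d
  l4 : ∀ a a' b c d : Fin n → ℝ, ∀ s t : ℝ,
    R4 R b c d (fun i => s * a i + t * a' i) = s * R4 R b c d a + t * R4 R b c d a'
  l3 : ∀ a a' b c d : Fin n → ℝ, ∀ s t : ℝ,
    R4 R b c (fun i => s * a i + t * a' i) d = s * R4 R b c a d + t * R4 R b c a' d
  l1 : ∀ a a' b c d : Fin n → ℝ, ∀ s t : ℝ,
    R4 R (fun i => s * a i + t * a' i) b c d = s * R4 R a b c d + t * R4 R a' b c d

theorem sy (hT : G_R4T) {R : T4 n} (hR : IsCurv R) : Sy R := by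
  obtain ⟨t1, -, t3, t4, t5, -, -, -, -, -, t11, -, -⟩ := hT n
  exact ⟨fun a b c d => (t3 R hR a b c d).1, fun a b c d => (t3 R hR a b c d).2.1,
    fun a b c d => (t3 R hR a b c d).2.2.1, fun u v => t4 R u v, fun u v => t5 R hR u v,
    fun a b c d => (t11 R a b c d).1, fun a b c d => (t11 R a b c d).2.1,
    fun a a' b c d s t => (t1 R a a' b c d s t).2.2.2, fun a a' b c d s t => (t1 R a a' b c d s t).2.2.1,
    fun a a' b c d s t => (t1 R a a' b c d s t).1⟩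

theorem Sy.z12 {R : T4 n} (h : Sy R) (a c d : Fin n → ℝ) : R4 R a a c d = 0 := by
  have := h.s1 a a c d
  linarith

theorem Sy.sw {R : T4 n} (h : Sy R) (a e b : Fin n → ℝ) : R4 R a e b e = R4 R e b e a := by
  rw [h.s1, h.s2, neg_neg, h.s3]

theorem Sy.dg {R : T4 n} (h : Sy R) (a e b : Fin n → ℝ) : R4 R e a e b = R4 R e b e a := h.s3 _ _ _ _

theorem Eg_lin {R : T4 n} (h : Sy R) {z a b : Fin n → ℝ} {s : ℝ} (α β : ℝ) (ha : Eg R z s a)
    (hb : Eg R z s b) : Eg R z s (fun i => α * a i + β * b i) := by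
  refine ⟨?_, fun p => ?_⟩
  · rw [dot_lin, ha.1, hb.1]
    ring
  · rw [h.l4, dot_lin', ha.2, hb.2]
    ring

variable {R : T4 n} {k l : ℕ} {z : Fin n → ℝ} {X : Fin k → Fin n → ℝ} {Y : Fin l → Fin n → ℝ}

theorem Fm.ac (h : Fm R k l z X Y) (hS : Sy R) {x y : Fin n → ℝ} (hx : Eg R z 4 x)
    (hy : Eg R z 1 y) (nx : nrm x = 1) (ny : nrm y = 1) : Ac R z x y := by
  have h1 := hy.2 x
  have h2 := hx.2 y
  rw [hS.dg, h1, dot_comm y x] at h2
  have h3 : dot x y = 0 := by linarith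
  refine ⟨h.fg, h.nz, nx, ny, by rw [dot_comm]; exact hx.1, by rw [dot_comm]; exact hy.1, h3, ?_, ?_⟩
  · rw [hS.k2, hx.2, ← nrm_dot, nx, mul_one]
  · rw [hS.k2, hy.2, ← nrm_dot, ny, mul_one]

theorem Fm.nX (h : Fm R k l z X Y) (i : Fin k) : nrm (X i) = 1 := by
  rw [nrm_dot, h.oX i i, if_pos rfl]

theorem Fm.nY (h : Fm R k l z X Y) (j : Fin l) : nrm (Y j) = 1 := by
  rw [nrm_dot, h.oY j j, if_pos rfl]

/-- the equality facts for one pair -/
structure Pf (R : T4 n) (z x y : Fin n → ℝ) : Prop where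
  a : Eg R x 4 z
  b : Eg R y 1 z
  c : K2 R x y = 1
  d : (∑ i, R4 R z (sb i) x y ^ 2) = 1
  e2 : ∀ p q, Eg R z 1 p → Eg R z 1 q → R4 R z p x q = - R4 R z q x p
  e3 : ∀ p q s, dot p z = 0 → Eg R z s q → s ≠ 1 → R4 R z p x q = 0 ∧ R4 R z q x p = 0
  e4 : ∀ p q, Eg R z 4 p → Eg R z 1 q → R4 R z p y q = 2 * R4 R z q y p
  e5 : ∀ p q, Eg R z 1 p → Eg R z 1 q → R4 R z p y q = 0
  e8 : ∀ q s, Eg R z s q → s ≠ 1 → dot q x = 0 → 4 * K2 R y q = K2 R x q
  e9 : ∀ q, Eg R z 1 q → dot q y = 0 → 4 * K2 R y q - K2 R x q =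
      3 * (∑ i, R4 R z (sb i) x q ^ 2) + 3 * (∑ i, R4 R z (sb i) y q ^ 2)

theorem Fm.pf (h : Fm R k l z X Y) (hE : G_EQF) (hS : Sy R) {x y : Fin n → ℝ} (hx : Eg R z 4 x)
    (hy : Eg R z 1 y) (nx : nrm x = 1) (ny : nrm y = 1) : Pf R z x y := by
  have hA := h.ac hS hx hy nx ny
  obtain ⟨-, -, -, -, -, -, h7⟩ := hE n R z x y hA
  obtain ⟨a, b, c, d, e2, e3, e4, e5, -, -, e8, e9⟩ := h7 (h.hD x y hA)
  exact ⟨a, b, c, d, e2, e3, e4, e5, e8, e9⟩

theorem Fm.norm (h : Fm R k l z X Y) (hS2 : G_SA2) (v : Fin n → ℝ) :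
    nrm v = dot v z ^ 2 + ∑ i, dot v (X i) ^ 2 + ∑ j, dot v (Y j) ^ 2 :=
  (hS2 n k l z X Y h.dim h.nz h.oX h.oY h.Xz h.Yz h.XY R h.fg.1).2.1 v

theorem Fm.ric (h : Fm R k l z X Y) (hS2 : G_SA2) (u v : Fin n → ℝ) :
    (∑ c, R4 R u (sb c) v (sb c)) = R4 R u z v z + ∑ i, R4 R u (X i) v (X i) +
      ∑ j, R4 R u (Y j) v (Y j) :=
  (hS2 n k l z X Y h.dim h.nz h.oX h.oY h.Xz h.Yz h.XY R h.fg.1).2.2 u v

theorem Fm.ext (h : Fm R k l z X Y) (hS2 : G_SA2) {w : Fin n → ℝ} (h0 : dot z w = 0)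
    (h1 : ∀ i, dot (X i) w = 0) (h2 : ∀ j, dot (Y j) w = 0) : w = 0 := by
  apply nrm_eq_zero
  rw [h.norm hS2 w, dot_comm w z, h0, Finset.sum_eq_zero fun i _ => by rw [dot_comm, h1 i]; norm_num,
    Finset.sum_eq_zero fun j _ => by rw [dot_comm, h2 j]; norm_num]
  norm_num

/-- the vector dual to `p ↦ R(z,p,x,y)` -/
theorem dual (hS : Sy R) (p x y : Fin n → ℝ) :
    dot p (fun a => R4 R z (sb a) x y) = R4 R z p x y := by
  rw [hS.e2 z p x y]
  rfl

theorem Fm.vert (h : Fm R k l z X Y) (hE : G_EQF) (hS : Sy R) (hS2 : G_SA2) (hk : 1 ≤ k) (j : Fin l) :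
    ∃ v, Ac R (Y j) v z := by
  obtain ⟨i0⟩ : Nonempty (Fin k) := ⟨⟨0, hk⟩⟩
  have P := h.pf hE hS (h.eX i0) (h.eY j) (h.nX i0) (h.nY j)
  obtain ⟨v, hv⟩ : ∃ v : Fin n → ℝ, v = fun a => R4 R z (sb a) (X i0) (Y j) := ⟨_, rfl⟩
  have hvp : ∀ p, dot p v = R4 R z p (X i0) (Y j) := fun p => by rw [hv, dual hS]
  have nv : nrm v = 1 := by
    rw [hv]
    exact P.d
  have vz : dot v z = 0 := by rw [dot_comm, hvp, hS.z12]
  have vX : ∀ i, dot (X i) v = 0 := fun i => by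
    rw [hvp]
    exact (P.e3 (Y j) (X i) 4 (h.Yz j) (h.eX i) (by norm_num)).2
  have vE : Eg R z 1 v := by
    refine ⟨vz, fun p => ?_⟩
    have hw : (fun a => 1 * R4 R z (sb a) z v + (-1) * v a) = 0 := by
      apply h.ext hS2
      · rw [dot_lin', dual hS, hS.z12, dot_comm z v, vz]
        ring
      · intro i
        rw [dot_lin', dual hS, hS.dg, (h.eX i).2 v, dot_comm v, vX i]
        ring
      · intro j'
        rw [dot_lin', dual hS, hS.dg, (h.eY j').2 v, dot_comm v]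
        ring
    have h1 : dot p (fun a => 1 * R4 R z (sb a) z v + (-1) * v a) = 0 := by
      rw [hw]
      unfold dot
      simp
    rw [dot_lin', dual hS] at h1
    linarith
  have P' := h.pf hE hS (h.eX i0) vE (h.nX i0) nv
  have vY : dot v (Y j) = 0 := by
    rw [dot_comm, hvp]
    have := P.e2 (Y j) (Y j) (h.eY j) (h.eY j)
    linarith
  have h9 := P.e9 v vE vY
  rw [P'.c, P'.d] at h9
  have hcs : R4 R z (X i0) (Y j) v ^ 2 ≤ (∑ i, X i0 i ^ 2) * ∑ i, R4 R z (sb i) (Y j) v ^ 2 := by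
    rw [hS.e2 z (X i0) (Y j) v]
    exact Finset.sum_mul_sq_le_sq_mul_sq _ _ _
  have hnx : (∑ i, X i0 i ^ 2) = 1 := h.nX i0
  have h4 := P.e4 (X i0) v (h.eX i0) vE
  rw [hS.s2 z v (Y j) (X i0), ← hvp v, ← nrm_dot, nv] at h4
  rw [h4, hnx] at hcs
  have hlow : 4 ≤ K2 R (Y j) v := by nlinarith
  have hzy : K2 R z (Y j) = 1 := by rw [hS.k2, (h.eY j).2, ← nrm_dot, h.nY, mul_one]
  have hfl := h.fg.2 (Y j) v z
  unfold fl wd at hfl
  rw [hzy, nv, h.nY, h.nz, vY, dot_comm z, h.Yz, hS.kc v] at hfl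
  refine ⟨v, h.fg, h.nY j, nv, h.nz, by rw [dot_comm]; exact vY, h.Yz j, vz, ?_, ?_⟩
  · linarith
  · rw [hS.kc, hzy]

theorem Fm.EgYX (h : Fm R k l z X Y) (hE : G_EQF) (hS : Sy R) (hS2 : G_SA2) (hk : 1 ≤ k) (i : Fin k)
    (j : Fin l) : Eg R (Y j) 1 (X i) := by
  obtain ⟨v, hv⟩ := h.vert hE hS hS2 hk j
  have P := h.pf hE hS (h.eX i) (h.eY j) (h.nX i) (h.nY j)
  obtain ⟨-, -, -, -, -, h6, -⟩ := hE n R (Y j) v z hv
  apply h6 (X i) (h.XY i j)
  rw [← hS.k2, hS.kc, P.c, h.nX]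

theorem Fm.EgXX (h : Fm R k l z X Y) (hE : G_EQF) (hS : Sy R) (hl : 1 ≤ l) {i i' : Fin k}
    (hi : i ≠ i') : Eg R (X i) 4 (X i') := by
  obtain ⟨j⟩ : Nonempty (Fin l) := ⟨⟨0, hl⟩⟩
  have P := h.pf hE hS (h.eX i) (h.eY j) (h.nX i) (h.nY j)
  have P' := h.pf hE hS (h.eX i') (h.eY j) (h.nX i') (h.nY j)
  have hxz : K2 R z (X i) = 4 := by rw [hS.k2, (h.eX i).2, ← nrm_dot, h.nX, mul_one]
  have hA : Ac R (X i) z (Y j) := ⟨h.fg, h.nX i, h.nz, h.nY j, h.Xz i, h.XY i j,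
    by rw [dot_comm]; exact h.Yz j, by rw [hS.kc]; exact hxz, P.c⟩
  obtain ⟨-, -, -, -, h5, -, -⟩ := hE n R (X i) z (Y j) hA
  have h1 : dot (X i') (X i) = 0 := by rw [h.oX i' i, if_neg (Ne.symm hi)]
  apply h5 (X i') h1
  have h8 := P.e8 (X i') 4 (h.eX i') (by norm_num) h1
  rw [hS.kc (Y j), P'.c] at h8
  rw [← hS.k2, ← h8, h.nX]

/-- Ricci form -/
def Rc (R : T4 n) (u v : Fin n → ℝ) : ℝ := ∑ c, R4 R u (sb c) v (sb c)

theorem Rc_dot (hS : Sy R) (u v : Fin n → ℝ) : Rc R u v = dot u (fun a => Rc R (sb a) v) := by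
  unfold Rc dot
  simp only [Finset.mul_sum]
  rw [Finset.sum_comm]
  exact Finset.sum_congr rfl fun c _ => hS.e1 _ _ _ _

theorem Rc_comm (hS : Sy R) (u v : Fin n → ℝ) : Rc R u v = Rc R v u :=
  Finset.sum_congr rfl fun _ _ => hS.s3 _ _ _ _

theorem Fm.RcZ (h : Fm R k l z X Y) (hE : G_EQF) (hS : Sy R) (hS2 : G_SA2) (hk : 1 ≤ k) (hl : 1 ≤ l)
    (v : Fin n → ℝ) : Rc R z v = (4 * k + l) * dot z v := by
  obtain ⟨i0⟩ : Nonempty (Fin k) := ⟨⟨0, hk⟩⟩
  obtain ⟨j0⟩ : Nonempty (Fin l) := ⟨⟨0, hl⟩⟩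
  have hx : ∀ i, R4 R z (X i) v (X i) = 4 * dot v z := fun i => by
    rw [hS.sw]
    exact (h.pf hE hS (h.eX i) (h.eY j0) (h.nX i) (h.nY j0)).a.2 v
  have hy : ∀ j, R4 R z (Y j) v (Y j) = 1 * dot v z := fun j => by
    rw [hS.sw]
    exact (h.pf hE hS (h.eX i0) (h.eY j) (h.nX i0) (h.nY j)).b.2 v
  unfold Rc
  rw [h.ric hS2, hS.z12]
  simp only [hx, hy, Finset.sum_const, Finset.card_univ, Fintype.card_fin, nsmul_eq_mul]
  rw [dot_comm v]
  ring

theorem Fm.RcX (h : Fm R k l z X Y) (hE : G_EQF) (hS : Sy R) (hS2 : G_SA2) (hk : 1 ≤ k) (hl : 1 ≤ l)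
    (i0 : Fin k) (v : Fin n → ℝ) : Rc R (X i0) v = (4 * k + l) * dot (X i0) v := by
  have hx : ∀ i, R4 R (X i0) (X i) v (X i) = 4 * dot v (X i0) - (if i = i0 then 4 * dot v (X i0) else 0) :=
    fun i => by
    by_cases hi : i = i0
    · rw [if_pos hi, hi, hS.z12]
      ring
    · rw [if_neg hi, hS.sw, (h.EgXX hE hS hl hi).2 v]
      ring
  have hy : ∀ j, R4 R (X i0) (Y j) v (Y j) = 1 * dot v (X i0) := fun j => by
    rw [hS.sw]
    exact (h.EgYX hE hS hS2 hk i0 j).2 v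
  unfold Rc
  rw [h.ric hS2, hS.sw, (h.eX i0).2 v]
  simp only [hx, hy, Finset.sum_sub_distrib, Finset.sum_const, Finset.card_univ, Fintype.card_fin,
    nsmul_eq_mul, Finset.sum_ite_eq', Finset.mem_univ, if_true]
  rw [dot_comm v]
  ring

theorem Fm.diag (h : Fm R k l z X Y) (hE : G_EQF) (hS : Sy R) (hS2 : G_SA2) (hk : 1 ≤ k)
    (j0 : Fin l) : Rc R (Y j0) (Y j0) = 4 * k + l := by
  obtain ⟨i0⟩ : Nonempty (Fin k) := ⟨⟨0, hk⟩⟩
  have P := fun i => h.pf hE hS (h.eX i) (h.eY j0) (h.nX i) (h.nY j0)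
  have hz : R4 R (Y j0) z (Y j0) z = 1 := by
    rw [hS.sw, (h.eY j0).2, ← nrm_dot, h.nY, mul_one]
  have hx : ∀ i, R4 R (Y j0) (X i) (Y j0) (X i) = 1 := fun i => by
    rw [← hS.k2, hS.kc, (P i).c]
  have hT0 : ∀ i, R4 R z (Y j0) (X i) (Y j0) = 0 := fun i => by
    have := (P i).e2 (Y j0) (Y j0) (h.eY j0) (h.eY j0)
    linarith
  have hT1 : ∀ i, ∑ j, R4 R z (Y j) (X i) (Y j0) ^ 2 = 1 := fun i => by
    have h1 := h.norm hS2 (fun a => R4 R z (sb a) (X i) (Y j0))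
    have h2 : nrm (fun a => R4 R z (sb a) (X i) (Y j0)) = 1 := (P i).d
    rw [h2] at h1
    simp only [dot_comm (fun a => R4 R z (sb a) (X i) (Y j0)), dual hS] at h1
    rw [hS.z12, Finset.sum_eq_zero fun i' _ => by
      rw [((P i).e3 (Y j0) (X i') 4 (h.Yz j0) (h.eX i') (by norm_num)).2]
      norm_num] at h1
    linarith
  have hy : ∀ j, R4 R (Y j0) (Y j) (Y j0) (Y j) =
      (1 - if j = j0 then 1 else 0) + 3 * ∑ i, R4 R z (Y j) (X i) (Y j0) ^ 2 := fun j => by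
    by_cases hj : j = j0
    · rw [if_pos hj, hj, hS.z12, Finset.sum_eq_zero fun i _ => by rw [hT0 i]; norm_num]
      ring
    · rw [if_neg hj]
      have h0 : dot (Y j) (Y j0) = 0 := by rw [h.oY j j0, if_neg hj]
      have h9 := (P i0).e9 (Y j) (h.eY j) h0
      have P' := h.pf hE hS (h.eX i0) (h.eY j) (h.nX i0) (h.nY j)
      rw [P'.c, P'.d, hS.k2] at h9
      have h1 := h.norm hS2 (fun a => R4 R z (sb a) (Y j0) (Y j))
      simp only [dot_comm (fun a => R4 R z (sb a) (Y j0) (Y j)), dual hS] at h1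
      rw [hS.z12, Finset.sum_eq_zero (s := univ) (f := fun j' => R4 R z (Y j') (Y j0) (Y j) ^ 2) fun j' _ => by
        rw [(P i0).e5 (Y j') (Y j) (h.eY j') (h.eY j)]
        norm_num] at h1
      have h2 : ∀ i, R4 R z (X i) (Y j0) (Y j) ^ 2 = 4 * R4 R z (Y j) (X i) (Y j0) ^ 2 := fun i => by
        rw [(P i0).e4 (X i) (Y j) (h.eX i) (h.eY j), hS.s2 z (Y j) (Y j0) (X i)]
        ring
      simp only [h2, ← Finset.mul_sum] at h1
      have h3 : (∑ i, R4 R z (sb i) (Y j0) (Y j) ^ 2) = nrm (fun a => R4 R z (sb a) (Y j0) (Y j)) := rfl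
      rw [h3, h1] at h9
      linarith
  unfold Rc
  rw [h.ric hS2, hz]
  simp only [hx, hy, Finset.sum_add_distrib, Finset.sum_sub_distrib, ← Finset.mul_sum]
  rw [Finset.sum_comm]
  simp only [hT1, Finset.sum_const, Finset.card_univ, Fintype.card_fin, nsmul_eq_mul,
    Finset.sum_ite_eq', Finset.mem_univ, if_true]
  ring

/-- rotation of two vectors -/
noncomputable def Yr (Y : Fin l → Fin n → ℝ) (j0 j1 : Fin l) (v : ℝ) (j : Fin l) : Fin n → ℝ :=
  if j = j0 then (fun i => v * Y j0 i + v * Y j1 i)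
  else if j = j1 then (fun i => v * Y j0 i + (-v) * Y j1 i) else fun i => 1 * Y j i + 0 * Y j i

theorem Fm.rotY (h : Fm R k l z X Y) (hS : Sy R) {j0 j1 : Fin l} (hj : j0 ≠ j1) {v : ℝ}
    (hv : v ^ 2 = 1 / 2) : Fm R k l z X (Yr Y j0 j1 v) := by
  refine ⟨h.dim, h.fg, h.nz, h.oX, ?_, h.Xz, ?_, ?_, h.eX, ?_, h.hD⟩
  · have oY : ∀ i j, dot (Y i) (Y j) = if i = j then 1 else 0 := h.oY
    have e0 : Yr Y j0 j1 v j0 = fun i => v * Y j0 i + v * Y j1 i := by
      unfold Yr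
      rw [if_pos rfl]
    have e1 : Yr Y j0 j1 v j1 = fun i => v * Y j0 i + (-v) * Y j1 i := by
      unfold Yr
      rw [if_neg (Ne.symm hj), if_pos rfl]
    have e2 : ∀ j, j ≠ j0 → j ≠ j1 → Yr Y j0 j1 v j = fun i => 1 * Y j i + 0 * Y j i := fun j h1 h2 => by
      unfold Yr
      rw [if_neg h1, if_neg h2]
    have hj' := Ne.symm hj
    intro a b
    by_cases a0 : a = j0
    · subst a0
      by_cases b0 : b = a
      · subst b0
        rw [e0, dot_lin, dot_lin', dot_lin', oY, oY, oY, oY, if_pos rfl, if_neg hj, if_neg hj',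
          if_pos rfl]
        linear_combination 2 * hv
      · by_cases b1 : b = j1
        · subst b1
          rw [e0, e1, dot_lin, dot_lin', dot_lin', oY, oY, oY, oY, if_pos rfl, if_neg hj, if_neg hj',
            if_pos rfl]
          ring
        · rw [e0, e2 b b0 b1, dot_lin, dot_lin', dot_lin', oY, oY, if_neg (Ne.symm b0),
            if_neg (Ne.symm b1)]
          ring
    · by_cases a1 : a = j1
      · subst a1
        by_cases b0 : b = j0
        · subst b0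
          rw [e0, e1, dot_lin, dot_lin', dot_lin', oY, oY, oY, oY, if_pos rfl, if_neg hj, if_neg hj',
            if_pos rfl]
          ring
        · by_cases b1 : b = a
          · subst b1
            rw [e1, dot_lin, dot_lin', dot_lin', oY, oY, oY, oY, if_pos rfl, if_neg hj, if_neg hj',
              if_pos rfl]
            linear_combination 2 * hv
          · rw [e1, e2 b b0 b1, dot_lin, dot_lin', dot_lin', oY, oY, if_neg (Ne.symm b0),
              if_neg (Ne.symm b1)]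
            ring
      · by_cases b0 : b = j0
        · subst b0
          rw [e0, e2 a a0 a1, dot_lin, dot_lin', oY, oY, if_neg a0, if_neg a1]
          ring
        · by_cases b1 : b = j1
          · subst b1
            rw [e1, e2 a a0 a1, dot_lin, dot_lin', oY, oY, if_neg a0, if_neg a1]
            ring
          · rw [e2 a a0 a1, e2 b b0 b1, dot_lin, dot_lin', oY]
            ring
  · intro j
    unfold Yr
    split_ifs <;> rw [dot_lin] <;> simp only [h.Yz] <;> ring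
  · intro i j
    unfold Yr
    split_ifs <;> rw [dot_lin'] <;> simp only [h.XY] <;> ring
  · intro j
    unfold Yr
    split_ifs <;> exact Eg_lin hS _ _ (h.eY _) (h.eY _)

theorem Fm.off (h : Fm R k l z X Y) (hE : G_EQF) (hS : Sy R) (hS2 : G_SA2) (hk : 1 ≤ k)
    {j0 j1 : Fin l} (hj : j0 ≠ j1) : Rc R (Y j0) (Y j1) = 0 := by
  obtain ⟨v, hv⟩ : ∃ v : ℝ, v ^ 2 = 1 / 2 := ⟨Real.sqrt (1 / 2), Real.sq_sqrt (by norm_num)⟩
  have h1 := (h.rotY hS hj hv).diag hE hS hS2 hk j0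
  have h2 := h.diag hE hS hS2 hk j0
  have h3 := h.diag hE hS hS2 hk j1
  have h4 := Rc_comm hS (Y j1) (Y j0)
  have e0 : Yr Y j0 j1 v j0 = fun i => v * Y j0 i + v * Y j1 i := by
    unfold Yr
    rw [if_pos rfl]
  have e1 : ∀ w : Fin n → ℝ, Rc R (fun i => v * Y j0 i + v * Y j1 i) w =
      v * Rc R (Y j0) w + v * Rc R (Y j1) w := fun w => by
    unfold Rc
    simp only [hS.l1, Finset.sum_add_distrib, Finset.mul_sum]
  rw [e0, e1, Rc_comm hS (Y j0), Rc_comm hS (Y j1), e1, e1, h2, h3, h4] at h1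
  have h5 : v ^ 2 * (2 * Rc R (Y j0) (Y j1)) + v ^ 2 * (2 * (4 * (k : ℝ) + l)) = 4 * k + l := by
    linear_combination h1
  rw [hv] at h5
  linarith

theorem Fm.all (h : Fm R k l z X Y) (hE : G_EQF) (hS : Sy R) (hS2 : G_SA2) (hk : 1 ≤ k) (hl : 1 ≤ l)
    (u v : Fin n → ℝ) : Rc R u v = (4 * k + l) * dot u v := by
  have key : ∀ w : Fin n → ℝ, Rc R z w = (4 * k + l) * dot z w →
      (∀ i, Rc R (X i) w = (4 * k + l) * dot (X i) w) →
      (∀ j, Rc R (Y j) w = (4 * k + l) * dot (Y j) w) → ∀ u, Rc R u w = (4 * k + l) * dot u w := by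
    intro w h0 h1 h2 u
    have hw : (fun a => 1 * Rc R (sb a) w + (-(4 * (k : ℝ) + l)) * w a) = 0 := by
      apply h.ext hS2
      · rw [dot_lin', ← Rc_dot hS, h0]
        ring
      · intro i
        rw [dot_lin', ← Rc_dot hS, h1]
        ring
      · intro j
        rw [dot_lin', ← Rc_dot hS, h2]
        ring
    have h3 : dot u (fun a => 1 * Rc R (sb a) w + (-(4 * (k : ℝ) + l)) * w a) = 0 := by
      rw [hw]
      unfold dot
      simp
    rw [dot_lin', ← Rc_dot hS] at h3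
    linarith
  refine key v (h.RcZ hE hS hS2 hk hl v) (fun i => h.RcX hE hS hS2 hk hl i v) (fun j => ?_) u
  rw [Rc_comm hS, dot_comm]
  refine key (Y j) (h.RcZ hE hS hS2 hk hl _) (fun i => h.RcX hE hS hS2 hk hl i _) (fun j' => ?_) v
  have oY : dot (Y j') (Y j) = if j' = j then 1 else 0 := h.oY j' j
  by_cases hj : j' = j
  · rw [oY, if_pos hj, hj, h.diag hE hS hS2 hk j, mul_one]
  · rw [oY, if_neg hj, h.off hE hS hS2 hk hj, mul_zero]

end SA3aux

open SA3aux in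
theorem g_SA3 (hEQF : G_EQF) (hR4T : G_R4T) (hSA2 : G_SA2) : G_SA3 := by
  intro n hn R k l z X Y hd hk hl hFG nz oX oY Xz Yz XY eX eY hD
  have hS := sy hR4T hFG.1
  have h : Fm R k l z X Y := ⟨hd, hFG, nz, oX, oY, Xz, Yz, XY, eX, eY, hD⟩
  have hsb := (hR4T n).2.2.2.2.2.2.2.2.2.1
  have hdsb : ∀ a b : Fin n, dot (sb a) (sb b) = if a = b then 1 else 0 := fun a b => by
    unfold dot sb
    simp
  have hRic : ∀ a b, Ric R a b = (4 * (k : ℝ) + l) * (if a = b then 1 else 0) := fun a b => by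
    have h1 := h.all hEQF hS hSA2 hk hl (sb a) (sb b)
    rw [hdsb] at h1
    rw [← h1]
    unfold Ric Rc
    exact Finset.sum_congr rfl fun c _ => (hsb R a c b c).symm
  have hn0 : (n : ℝ) ≠ 0 := by
    have : 0 < n := by omega
    exact_mod_cast this.ne'
  have hlam : lam R = 4 * (k : ℝ) + l := by
    unfold lam
    simp only [hRic, if_true, mul_one, Finset.sum_const, Finset.card_univ, Fintype.card_fin,
      nsmul_eq_mul]
    field_simp
  unfold hh
  refine Finset.sum_eq_zero fun a _ => Finset.sum_eq_zero fun b _ => ?_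
  have h2 : Ric0 R a b = 0 := by
    unfold Ric0
    rw [Matrix.sub_apply, Matrix.smul_apply, hRic, hlam, Matrix.one_apply, smul_eq_mul, sub_self]
  rw [h2]
  norm_num

end Pool.Agent.Helper47.FLG
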